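import Mathlib
import Pool.Agent.HLead.CB.Defs

set_option autoImplicit false

namespace Pool.Agent.H700.CB
open Pool.Agent.HLead.CB

section
variable {A B : Type} (st : A → ℚ → A) (st' : B → ℚ → B) (ph : A → B → ℚ ≃o ℚ)

/-- the map -/
def FF : A → B → List ℚ → List ℚ
  | _, _, [] => []
  | a, b, q :: l => ph a b q :: FF (st a q) (st' b (ph a b q)) l

/-- the inverse map -/
def GG : A → B → List ℚ → List ℚ
  | _, _, [] => []
  | a, b, q :: l => (ph a b).symm q :: GG (st a ((ph a b).symm q)) (st' b q) l

lemma GF (a : A) (b : B) (l : List ℚ) : GG st st' ph a b (FF st st' ph a b l) = l := by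
  induction l generalizing a b with
  | nil => rfl
  | cons q l ih => simp [FF, GG, ih]

lemma FG (a : A) (b : B) (l : List ℚ) : FF st st' ph a b (GG st st' ph a b l) = l := by
  induction l generalizing a b with
  | nil => rfl
  | cons q l ih => simp [FF, GG, ih]

lemma FF_lt (a : A) (b : B) (l m : List ℚ) :
    FF st st' ph a b l < FF st st' ph a b m ↔ l < m := by
  induction l generalizing a b m with
  | nil =>
    cases m with
    | nil => simp [FF]
    | cons q m => simp [FF]
  | cons q l ih =>
    cases m with
    | nil => simp [FF]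
    | cons r m =>
      simp only [FF, List.cons_lt_cons_iff, OrderIso.lt_iff_lt, EmbeddingLike.apply_eq_iff_eq]
      constructor
      · rintro (h | ⟨h, h2⟩)
        · exact Or.inl h
        · subst h
          exact Or.inr ⟨rfl, (ih _ _ _).1 h2⟩
      · rintro (h | ⟨h, h2⟩)
        · exact Or.inl h
        · subst h
          exact Or.inr ⟨rfl, (ih _ _ _).2 h2⟩

end

/-- TASK AUT. Local isomorphisms fit together. -/
theorem t : S_AUT := by
  classical
  intro A B st st' R H a b hab
  let ph : A → B → ℚ ≃o ℚ := fun a b => if h : R a b then (H a b h).choose else OrderIso.refl ℚ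
  have hph : ∀ a b, R a b → ∀ q, R (st a q) (st' b (ph a b q)) := by
    intro a b h q
    have : ph a b = (H a b h).choose := dif_pos h
    rw [this]
    exact (H a b h).choose_spec q
  refine ⟨⟨⟨FF st st' ph a b, GG st st' ph a b, GF st st' ph a b, FG st st' ph a b⟩, ?_⟩, ?_⟩
  · intro l m
    simp only [Equiv.coe_fn_mk]
    rw [← not_lt, ← not_lt, FF_lt]
  · intro σ
    change (FF st st' ph a b σ).length = σ.length ∧ R (run st a σ) (run st' b (FF st st' ph a b σ))
    induction σ generalizing a b with
    | nil => exact ⟨rfl, hab⟩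
    | cons q l ih =>
      obtain ⟨h1, h2⟩ := ih _ _ (hph a b hab q)
      exact ⟨by simp [FF, h1], h2⟩

end Pool.Agent.H700.CB
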